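import Pool.Agent.NH66.Cantor.Sys
import Pool.Agent.NH66.Cantor.Decode

/-!
# A non-deterministic dynamically generated basic sequence `Q` with `N(Q) ⊆ DN(Q)`

There is a bounded basic sequence `Q` that is dynamically generated by a system of positive
measure-theoretic entropy, such that every `Q`-normal number is `Q`-distribution normal. Hence
`N(Q) \ DN(Q)` is empty: its Hausdorff dimension is `0` and it is not `D₂(Π⁰₃)`-complete.
-/

namespace Pool.Agent.Results.MP_2f0ae6_an.EmptyDifference

open Pool.Agent.NH66.Cantor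

/-- Some non-deterministic dynamically generated (and bounded) `Q` has `N(Q) \ DN(Q) = ∅`; hence the
statement of Q1 is false. -/
theorem result :
    (∃ q : ℕ → ℕ, NonDeterministic q ∧ (∃ C : ℕ, ∀ n, q n ≤ C) ∧
      NormalSet q \ DistNormalSet q = ∅) ∧
    ¬ ∀ q : ℕ → ℕ, NonDeterministic q →
      dimH (NormalSet q \ DistNormalSet q) = 1 ∧
      D2Pi03Complete {y : Set.Ico (0 : ℝ) 1 | (y : ℝ) ∈ NormalSet q \ DistNormalSet q} := by
  have h : NormalSet Q \ DistNormalSet Q = ∅ := Set.sdiff_eq_empty.mpr (normal_subset vv)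
  refine ⟨⟨Q, nonDeterministic_Q, ⟨lc, QQ_le vv⟩, h⟩, fun hQ => ?_⟩
  obtain ⟨h1, _⟩ := hQ Q nonDeterministic_Q
  rw [h, dimH_empty] at h1
  exact zero_ne_one h1

end Pool.Agent.Results.MP_2f0ae6_an.EmptyDifference
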